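import Mathlib
import Pool.Agent.Lib.helper26.CRate

namespace Pool.Agent.Results.MP_5a8271_pr.NoRate

/-- upper probability function `F x = Pr(X ⪰ x)` of the density `f` -/
noncomputable def upper {S : Type} [PartialOrder S] (f : S → ℝ) (x : S) : ℝ :=
  ∑' y : {y : S // x ≤ y}, f y

/-- the poset `S` supports a distribution of constant rate -/
def Supports (S : Type) [PartialOrder S] : Prop :=
  ∃ (f : S → ℝ) (α : ℝ), (∀ x, 0 ≤ f x) ∧ HasSum f 1 ∧ 0 < α ∧ (∀ x, 0 < upper f x) ∧
    ∀ x, f x = α * upper f x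

theorem result : ¬ ∀ (S : Type) [PartialOrder S] [Countable S] [Nonempty S],
    (∀ x : S, {y | y ≤ x}.Finite) → (∀ x : S, ∃ y, y ≠ x ∧ x ≤ y) → Supports S := by
  intro h
  obtain ⟨f, α, hf, hs, hα, hF, h⟩ := h (Finset ℕ) (fun x => Set.finite_Iic x) (by
    intro x
    obtain ⟨n, hn⟩ := Infinite.exists_notMem_finset x
    refine ⟨insert n x, fun he => hn ?_, Finset.subset_insert n x⟩
    rw [← he]
    exact Finset.mem_insert_self n x)
  have h0 := Pool.Agent.Lib.helper26.CRate.no_rate f α hf hs.summable hα.le h 0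
  have := mul_pos hα (hF {0})
  rw [← h {0}] at this
  exact this.ne' h0

end Pool.Agent.Results.MP_5a8271_pr.NoRate
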